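import Pool.Agent.W206.ZF.PiRing

/-!
# Zeta functions of schemes of finite type over `ℤ` and of smooth affine cubic hypersurfaces

For integers `n`, `r` and polynomials `q_1, ..., q_r` in `x_1, ..., x_n`, each of the form
`x_a + x_b - x_c`, `x_a x_b - x_c` or `x_a - 1`, let `W` be the hypersurface
`∑ t_j q_j(x) = 1` in the affine space of dimension `n + r` over `ℤ`. It is smooth over `ℤ`, since
`∑ t_j ∂/∂t_j (∑ t_j q_j) = 1` on `W`.

Every scheme `X` of finite type over `ℤ` has such a companion `W` with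
`ζ_X(s) ζ_W(s + r - 1) = ζ(s - n)`. Hence all `ζ_X` have meromorphic continuations if and only if
the zeta functions of these cubic hypersurfaces have meromorphic continuations.
-/

set_option autoImplicit false

namespace Pool.Agent.Results.MP_666bea_ag.CubicHypersurfaces

open AlgebraicGeometry CategoryTheory

/-- The zeta function of a scheme: the product over its closed points `x` of
`(1 - (#k(x)) ^ (-s))⁻¹`. -/
noncomputable def zeta (X : Scheme.{0}) (s : ℂ) : ℂ :=
  ∏' x : {x : X // IsClosed ({x} : Set X)}, (1 - ((Nat.card (X.residueField x.1) : ℂ) ^ (-s)))⁻¹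

/-- The polynomials `x_a + x_b - x_c`, `x_a x_b - x_c` and `x_a - 1`. -/
def IsGate {n : ℕ} (q : MvPolynomial (Fin n) ℤ) : Prop :=
  ∃ a b c : Fin n, q = .X a + .X b - .X c ∨ q = .X a * .X b - .X c ∨ q = .X a - 1

/-- The affine hypersurface `∑ t_j q_j(x) = 1` over `ℤ`: the spectrum of
`ℤ[x_1, ..., x_n, t_1, ..., t_r] / (∑ t_j q_j - 1)`. -/
noncomputable def W {n r : ℕ} (q : Fin r → MvPolynomial (Fin n) ℤ) : Scheme.{0} :=
  Spec (CommRingCat.of (MvPolynomial (Fin n ⊕ Fin r) ℤ ⧸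
    Ideal.span {∑ j, .X (Sum.inr j) * MvPolynomial.rename Sum.inl (q j) - 1}))

theorem result :
    (List.TFAE [
      -- (1) all schemes of finite type over `ℤ`
      (∀ (X : Scheme.{0}) (f : X ⟶ Spec (CommRingCat.of ℤ)),
        LocallyOfFiniteType f → QuasiCompact f →
        ∃ F : ℂ → ℂ, MeromorphicOn F Set.univ ∧
          ∃ σ : ℝ, ∀ s : ℂ, σ < s.re →
            F s = ∏' x : {x : X // IsClosed ({x} : Set X)},
              (1 - ((Nat.card (X.residueField x.1) : ℂ) ^ (-s)))⁻¹),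
      -- (2) the hypersurfaces `∑ t_j q_j(x) = 1`
      (∀ (n r : ℕ) (q : Fin r → MvPolynomial (Fin n) ℤ), (∀ j, IsGate (q j)) →
        ∃ F : ℂ → ℂ, MeromorphicOn F Set.univ ∧
          ∃ σ : ℝ, ∀ s : ℂ, σ < s.re → F s = zeta (W q) s),
      -- (3) the same in terms of numbers of solutions
      (∀ (n r : ℕ) (q : Fin r → MvPolynomial (Fin n) ℤ), (∀ j, IsGate (q j)) →
        ∃ F : ℂ → ℂ, MeromorphicOn F Set.univ ∧
          ∃ σ : ℝ, ∀ s : ℂ, σ < s.re →
            F s = Complex.exp (∑' (p : Nat.Primes) (k : ℕ),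
              (Nat.card {z : (Fin n → @GaloisField (p : ℕ) ⟨p.2⟩ (k + 1)) ×
                  (Fin r → @GaloisField (p : ℕ) ⟨p.2⟩ (k + 1)) //
                ∑ j, z.2 j * MvPolynomial.aeval z.1 (q j) = 1} : ℂ) / ((k : ℂ) + 1) *
                  (p : ℂ) ^ (-(((k : ℂ) + 1) * s))))]) ∧
    -- the companion of a scheme
    (∀ (X : Scheme.{0}) (f : X ⟶ Spec (CommRingCat.of ℤ)),
      LocallyOfFiniteType f → QuasiCompact f →
      ∃ (n r : ℕ) (q : Fin (r + 1) → MvPolynomial (Fin n) ℤ), (∀ j, IsGate (q j)) ∧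
        ∃ σ : ℝ, ∀ s : ℂ, σ < s.re →
          zeta X s * zeta (W q) (s + r) = riemannZeta (s - n)) := by
  have hft : ∀ (n r : ℕ) (q : Fin r → MvPolynomial (Fin n) ℤ),
      @Algebra.FiniteType ℤ (MvPolynomial (Fin n ⊕ Fin r) ℤ ⧸ Ideal.span {W206.ZF.gW q}) _ _
        (Ring.toIntAlgebra _) := fun n r q =>
    W206.ZF.finiteType_of_surj (Ideal.Quotient.mk (Ideal.span {W206.ZF.gW q}))
      Ideal.Quotient.mk_surjective
  have hW : ∀ (n r : ℕ) (q : Fin r → MvPolynomial (Fin n) ℤ) (s : ℂ), zeta (W q) s =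
      W206.ZF.ZZ (MvPolynomial (Fin n ⊕ Fin r) ℤ ⧸ Ideal.span {W206.ZF.gW q}) s :=
    fun n r q s => W206.ZF.EP_Spec _ s
  constructor
  · tfae_have 1 → 3 := by
      intro H n r q hq
      have := hft n r q
      have hloft : LocallyOfFiniteType (Spec.map (CommRingCat.ofHom
          (algebraMap ℤ (MvPolynomial (Fin n ⊕ Fin r) ℤ ⧸ Ideal.span {W206.ZF.gW q})))) := by
        rw [HasRingHomProperty.Spec_iff (P := @LocallyOfFiniteType)]
        exact RingHom.finiteType_algebraMap.mpr (hft n r q)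
      obtain ⟨F, hF, σ, hσ⟩ := H (Spec (CommRingCat.of
        (MvPolynomial (Fin n ⊕ Fin r) ℤ ⧸ Ideal.span {W206.ZF.gW q}))) _ hloft inferInstance
      obtain ⟨σ', hσ'⟩ := W206.ZF.TT_count
        (MvPolynomial (Fin n ⊕ Fin r) ℤ ⧸ Ideal.span {W206.ZF.gW q})
      refine ⟨F, hF, max σ σ', fun s hs => ?_⟩
      rw [hσ s (lt_of_le_of_lt (le_max_left _ _) hs)]
      have h1 := hσ' s (lt_of_le_of_lt (le_max_right _ _) hs)
      have h2 := hW n r q s
      refine h2.trans (h1.trans ?_)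
      congr 1
      refine tsum_congr fun p => tsum_congr fun k => ?_
      have : Fact (p : ℕ).Prime := ⟨p.2⟩
      rw [W206.ZF.card_hom_gW]
    tfae_have 3 → 2 := by
      intro H n r q hq
      have := hft n r q
      obtain ⟨F, hF, σ, hσ⟩ := H n r q hq
      obtain ⟨σ', hσ'⟩ := W206.ZF.TT_count
        (MvPolynomial (Fin n ⊕ Fin r) ℤ ⧸ Ideal.span {W206.ZF.gW q})
      refine ⟨F, hF, max σ σ', fun s hs => ?_⟩
      rw [hσ s (lt_of_le_of_lt (le_max_left _ _) hs)]
      have h1 := hσ' s (lt_of_le_of_lt (le_max_right _ _) hs)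
      have h2 := hW n r q s
      refine Eq.trans ?_ (h1.symm.trans h2.symm)
      congr 1
      refine tsum_congr fun p => tsum_congr fun k => ?_
      have : Fact (p : ℕ).Prime := ⟨p.2⟩
      rw [W206.ZF.card_hom_gW]
    tfae_have 2 → 1 := by
      intro H X f h1 h2
      refine W206.ZF.cont_scheme (fun B _ _ => W206.ZF.cont_of_cubic
        (fun n r q hq => ?_) B) X f h1 h2
      obtain ⟨F, hF, σ, hσ⟩ := H n (r + 1) q hq
      refine ⟨F, hF, σ, fun s hs => ?_⟩
      rw [hσ s hs]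
      exact hW n (r + 1) q s
    tfae_finish
  · intro X f h1 h2
    obtain ⟨k, B, hB, hftB, σ, hσ⟩ := W206.ZF.EP_eq_prod X f h1 h2
    have hpi := W206.ZF.finiteType_pi B
    obtain ⟨σ', hσ'⟩ := W206.ZF.ZZ_pi B
    obtain ⟨n, r, q, hq, hcard⟩ := W206.ZF.exists_gates_ring (∀ i, B i)
    have := hft n (r + 1) q
    obtain ⟨σ₀, hσ₀⟩ := W206.ZF.relation (∀ i, B i)
      (MvPolynomial (Fin n ⊕ Fin (r + 1)) ℤ ⧸ Ideal.span {W206.ZF.gW q}) n r (by
        intro K _ _
        rw [W206.ZF.card_hom_hyp, hcard K]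
        exact W206.ZF.card_cubic q)
    refine ⟨n, r, q, hq, max (max σ σ') σ₀, fun s hs => ?_⟩
    have e1 : zeta X s = ∏ i, W206.ZF.ZZ (B i) s :=
      hσ s (lt_of_le_of_lt ((le_max_left _ _).trans (le_max_left _ _)) hs)
    have e2 := hσ' s (lt_of_le_of_lt ((le_max_right _ _).trans (le_max_left _ _)) hs)
    obtain ⟨_, e3, _⟩ := hσ₀ s (lt_of_le_of_lt (le_max_right _ _) hs)
    rw [hW, e1, ← e2, mul_comm]
    exact e3

end Pool.Agent.Results.MP_666bea_ag.CubicHypersurfaces
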